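import Mathlib
import Pool.Agent.KS6_1.Dual.Surgery

set_option autoImplicit false

/-!
# Tilings without dual in every dimension `d ≥ 3`; subdividing one tile destroys every dual

Library: one tiling of three-space without dual.  Here, for every `d ≥ 3`:

* every locally finite tiling `T₀` of `ℝ^d` by convex polytopes and every tile `A` of it can be
  changed, by subdividing the tile `A` into finitely many convex polytopes, to a tiling without
  dual;
* some tiling of `ℝ^d` by translates of a single box has no dual;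
* in both cases the reason is finite: there are finitely many cells of the tiling which cannot be
  mapped injectively and inclusion reversingly to the cells of any tiling of `ℝ^d`.
-/

namespace Pool.Agent.Results.MP_d6d24d_co.NoDualAnyDim

/-- The space `ℝ^d`. -/
abbrev Sp (d : ℕ) : Type := Fin d → ℝ

/-- `F` is a face of the convex polytope `P`: a convex extreme subset of `P`. The empty set and
`P` itself are faces. -/
def IsFace {d : ℕ} (P F : Set (Sp d)) : Prop := Convex ℝ F ∧ IsExtreme ℝ P F

/-- A locally finite tiling of `ℝ^d` by `d`-dimensional convex polytopes. -/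
structure IsPolytopeTiling {d : ℕ} (T : Set (Set (Sp d))) : Prop where
  polytope : ∀ A ∈ T, (∃ V : Finset (Sp d), A = convexHull ℝ (V : Set (Sp d))) ∧
    (interior A).Nonempty
  covers : ⋃₀ T = Set.univ
  disjoint : ∀ A ∈ T, ∀ B ∈ T, A ≠ B → Disjoint (interior A) (interior B)
  locallyFinite : ∀ B : Set (Sp d), Bornology.IsBounded B → {A | A ∈ T ∧ (A ∩ B).Nonempty}.Finite

/-- The set of pairs `(A, F)` with `A` a tile containing `x` and `F` the face of `A` whose relative
interior contains `x`. -/
def sigma {d : ℕ} (T : Set (Set (Sp d))) (x : Sp d) : Set (Set (Sp d) × Set (Sp d)) :=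
  {p | p.1 ∈ T ∧ x ∈ p.1 ∧ IsFace p.1 p.2 ∧ x ∈ intrinsicInterior ℝ p.2}

/-- The cells of a tiling: closures of the classes of points with the same `sigma`. -/
def cells {d : ℕ} (T : Set (Set (Sp d))) : Set (Set (Sp d)) :=
  {C | ∃ x, C = closure {y | sigma T y = sigma T x}}

/-- The elements of the face poset of a tiling: all cells, the empty set and the whole space. -/
def facePoset {d : ℕ} (T : Set (Set (Sp d))) : Set (Set (Sp d)) :=
  cells T ∪ {∅, Set.univ}

/-- Two tilings are dual if there is an inclusion reversing bijection between their face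
posets. -/
def AreDual {d : ℕ} (T T' : Set (Set (Sp d))) : Prop :=
  ∃ φ : facePoset T ≃ facePoset T', ∀ F₁ F₂ : facePoset T,
    (F₁ : Set (Sp d)) ⊆ F₂ ↔ (φ F₂ : Set (Sp d)) ⊆ φ F₁

/-- `T` has no dual tiling, and there is a finite reason for it: finitely many cells of `T` which
cannot be mapped injectively and inclusion reversingly to the cells of a tiling of `ℝ^d`. -/
def FinitelyUndualizable {d : ℕ} (T : Set (Set (Sp d))) : Prop :=
  (∀ T' : Set (Set (Sp d)), IsPolytopeTiling T' → ¬ AreDual T T') ∧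
  ∃ P : Set (Set (Sp d)), P.Finite ∧ P ⊆ cells T ∧
    ∀ T' : Set (Set (Sp d)), IsPolytopeTiling T' → ¬ ∃ ψ : Set (Sp d) → Set (Sp d),
      (∀ C ∈ P, ψ C ∈ cells T') ∧ Set.InjOn ψ P ∧
      ∀ C₁ ∈ P, ∀ C₂ ∈ P, C₁ ⊆ C₂ → ψ C₂ ⊆ ψ C₁

/-! ### Comparison with the definitions of the starting files -/

section compare

variable {d : ℕ}

lemma tiling_iff {T : Set (Set (Sp d))} :
    IsPolytopeTiling T ↔ Pool.Agent.KS6_1.Dual.IsPolytopeTiling T :=
  ⟨fun h => ⟨h.1, h.2, h.3, h.4⟩, fun h => ⟨h.1, h.2, h.3, h.4⟩⟩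

lemma undualizable {m : ℕ} {T P : Set (Set (Sp (m + 3)))} (hT : IsPolytopeTiling T)
    (hP : P.Finite) (hPT : P ⊆ cells T) (hc : Pool.Agent.KS6_1.Dual.Config m P) :
    FinitelyUndualizable T := by
  have hn := hc.notReversible
  have hT2 := tiling_iff.1 hT
  have hcu : ∀ C ∈ P, C ≠ ∅ ∧ C ≠ Set.univ := by
    intro C hC
    have hne := Pool.Agent.KS6_1.Dual.cell_nonempty (hPT hC)
    refine ⟨hne.ne_empty, ?_⟩
    obtain ⟨x, hx⟩ := hPT hC
    intro h
    have hxT : x ∈ ⋃₀ T := by rw [hT.covers]; trivial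
    obtain ⟨A, hA, hxA⟩ := hxT
    have hsub : closure {y | sigma T y = sigma T x} ⊆ A := by
      apply closure_minimal _ (hT2.closed hA)
      intro y hy
      exact ((hT2.sigma_eq_iff (x := x) (y := y)).1 hy A hA).1.2 hxA
    rw [← hx, h] at hsub
    have hb := (hT2.bounded hA).subset hsub
    exact NormedSpace.unbounded_univ ℝ (Sp (m + 3)) hb
  refine ⟨fun T' hT' => hn.not_dual hPT (tiling_iff.1 hT') hcu, P, hP, hPT, fun T' hT' => ?_⟩
  rintro ⟨ψ, h1, h2, h3⟩
  exact hn T' (tiling_iff.1 hT') ψ h1 h2 h3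

end compare

/-- **In every dimension `d ≥ 3`, subdividing a single tile can destroy all duals.**

Let `d ≥ 3`.
* For every locally finite tiling `T₀` of `ℝ^d` by convex polytopes and every tile `A` of `T₀`
  there is such a tiling `T` which contains all tiles of `T₀` other than `A` and besides them only
  finitely many tiles, all contained in `A`, such that `T` has no dual tiling.
* There is a tiling of `ℝ^d` by translates of one box which has no dual tiling.

In both cases there are finitely many cells of the tiling which cannot be mapped injectively and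
inclusion reversingly to the cells of a tiling of `ℝ^d`. -/
theorem result : ∀ d : ℕ, 3 ≤ d →
    (∀ T₀ : Set (Set (Sp d)), IsPolytopeTiling T₀ → ∀ A ∈ T₀,
      ∃ T : Set (Set (Sp d)), IsPolytopeTiling T ∧ T₀ \ {A} ⊆ T ∧ (T \ T₀).Finite ∧
        (∀ C ∈ T \ (T₀ \ {A}), C ⊆ A) ∧ FinitelyUndualizable T) ∧
    ∃ T : Set (Set (Sp d)), IsPolytopeTiling T ∧
      (∃ b : Sp d, (∀ i, 0 < b i) ∧ ∀ A ∈ T, ∃ v : Sp d, A = Set.Icc v (v + b)) ∧
      FinitelyUndualizable T := by
  intro d hd
  obtain ⟨m, rfl⟩ : ∃ m, d = m + 3 := ⟨d - 3, by omega⟩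
  refine ⟨fun T₀ hT₀ A hA => ?_, ?_⟩
  · obtain ⟨T, P, h1, h2, h3, h4, h5, h6, h7⟩ :=
      Pool.Agent.KS6_1.Dual.surgery m (tiling_iff.1 hT₀) hA
    refine ⟨T, tiling_iff.2 h1, h2, h3, ?_, undualizable (tiling_iff.2 h1) h5 h6 h7⟩
    rintro C ⟨hC, hC'⟩
    by_cases h : C ∈ T₀
    · have : C = A := by
        by_contra hne
        exact hC' ⟨h, hne⟩
      rw [this]
    · exact h4 C ⟨hC, h⟩
  · obtain ⟨T, P, h1, h2, h3, h4, h5⟩ := Pool.Agent.KS6_1.Dual.box_tilings m
    exact ⟨T, tiling_iff.2 h1, h2, undualizable (tiling_iff.2 h1) h3 h4 h5⟩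

end Pool.Agent.Results.MP_d6d24d_co.NoDualAnyDim
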